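import Pool.Agent.Helper12.XG.St

/-!
# Project XG, module COR: the arithmetic core
-/

set_option autoImplicit false

namespace Pool.Agent.Helper47.XG

open Finset Polynomial Pool.Agent.Helper12.XG Pool.Agent.Helper14.GS

private theorem int_zero {a : ℤ} (h : |(a : ℝ)| < 1) : a = 0 := by
  have h1 : |a| < 1 := by exact_mod_cast h
  exact Int.abs_lt_one_iff.1 h1

private theorem int_one {a : ℤ} (h : a ≠ 0) : 1 ≤ |(a : ℝ)| := by
  have h1 : 1 ≤ |a| := Int.one_le_abs h
  exact_mod_cast h1

theorem hCOR : StCOR := by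
  intro n₀ n₁ z J R ϑ ε W Am hε hW hA hsm h1 h2 h3
  have hAε : ε ≤ Am * ε := by nlinarith
  have hAA : Am * ε ≤ Am ^ 2 * ε := by nlinarith [mul_nonneg (by linarith : (0:ℝ) ≤ Am) hε]
  have hWA : Am * ε ≤ W * (Am * ε) := by nlinarith [mul_nonneg (by linarith : (0:ℝ) ≤ Am) hε]
  have hA2 : 0 ≤ Am ^ 2 * ε := by positivity
  have hWA2 : Am ^ 2 * ε ≤ W * (Am ^ 2 * ε) := by nlinarith
  have hWW : W * (Am ^ 2 * ε) ≤ W ^ 2 * Am ^ 2 * ε := by
    have h4 : 0 ≤ W * (Am ^ 2 * ε) := by positivity
    nlinarith
  have key : ∀ n : ℕ, n < n₁ → |z n| ≤ 4 * W * Am * ε ∧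
      ((∀ m ≤ n, R m = 0 ∧ |z m| ≤ ε) ∨ ∃ s ≤ n, R s ≠ 0 ∧ |z s| ≤ 2 * Am * ε) := by
    intro n
    induction n using Nat.strong_induction_on with
    | _ n ih =>
    intro hn
    obtain ⟨hen, hRn⟩ := h1 n hn
    by_cases hB : ∃ s < n, R s ≠ 0 ∧ |z s| ≤ 2 * Am * ε
    · obtain ⟨s, hs, hRs, hzs⟩ := hB
      refine ⟨?_, Or.inr ⟨s, hs.le, hRs, hzs⟩⟩
      obtain ⟨hes, hRs'⟩ := h1 s (hs.trans hn)
      have hz5 : |z n| ≤ 4 * W * Am ^ 2 * ε + ε := by
        rcases lt_or_ge n n₀ with hlt | hge
        · have := h2 n hn hlt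
          have h5 : 0 ≤ 4 * W * Am ^ 2 * ε := by positivity
          linarith
        · have h5 : 0 ≤ 4 * W * Am * ε := by positivity
          have := h3 n hn hge (4 * W * Am * ε) h5 (fun m hm => (ih m hm (hm.trans hn)).1)
          calc |z n| ≤ Am * (4 * W * Am * ε) + ε := this
            _ = 4 * W * Am ^ 2 * ε + ε := by ring
      obtain ⟨en, hend⟩ : ∃ e : ℝ, e = z n - J n - ϑ * R n := ⟨_, rfl⟩
      obtain ⟨es, hesd⟩ : ∃ e : ℝ, e = z s - J s - ϑ * R s := ⟨_, rfl⟩
      rw [← hend] at hen
      rw [← hesd] at hes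
      have hid : ((J n * R s - J s * R n : ℤ) : ℝ) =
          z n * R s - z s * R n - en * R s + es * R n := by
        push_cast
        rw [hend, hesd]
        ring
      have b1 : |z n * R s| ≤ (4 * W * Am ^ 2 * ε + ε) * W := by
        rw [abs_mul]
        exact mul_le_mul hz5 hRs' (abs_nonneg _) (by positivity)
      have b2 : |z s * R n| ≤ (2 * Am * ε) * W := by
        rw [abs_mul]
        exact mul_le_mul hzs hRn (abs_nonneg _) (by positivity)
      have b3 : |en * R s| ≤ ε * W := by
        rw [abs_mul]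
        exact mul_le_mul hen hRs' (abs_nonneg _) hε
      have b4 : |es * R n| ≤ ε * W := by
        rw [abs_mul]
        exact mul_le_mul hes hRn (abs_nonneg _) hε
      have hW0 : 0 ≤ W := by linarith
      have c1 : ε * W ≤ W ^ 2 * Am ^ 2 * ε := by
        have : ε ≤ W * (Am ^ 2 * ε) := by linarith
        nlinarith [mul_le_mul_of_nonneg_left this hW0]
      have c2 : Am * ε * W ≤ W ^ 2 * Am ^ 2 * ε := by
        have : Am * ε ≤ W * (Am ^ 2 * ε) := by linarith
        nlinarith [mul_le_mul_of_nonneg_left this hW0]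
      have hz : J n * R s - J s * R n = 0 := by
        apply int_zero
        rw [hid]
        have h6 : |z n * R s - z s * R n - en * R s + es * R n| ≤
            |z n * R s| + |z s * R n| + |en * R s| + |es * R n| := by
          have g1 := abs_add_le (z n * R s - z s * R n - en * R s) (es * R n)
          have g2 := abs_sub (z n * R s - z s * R n) (en * R s)
          have g3 := abs_sub (z n * R s) (z s * R n)
          linarith
        have h7 : (4 * W * Am ^ 2 * ε + ε) * W = 4 * (W ^ 2 * Am ^ 2 * ε) + ε * W := by ring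
        have h8 : (2 * Am * ε) * W = 2 * (Am * ε * W) := by ring
        linarith
      have hz' : z n * R s = z s * R n + en * R s - es * R n := by
        have : ((J n * R s - J s * R n : ℤ) : ℝ) = 0 := by rw [hz]; simp
        rw [hid] at this
        linarith
      have hR1 : 1 ≤ |(R s : ℝ)| := int_one hRs
      have h9 : |z n| * |(R s : ℝ)| ≤ (2 * Am * ε) * W + ε * |(R s : ℝ)| + ε * W := by
        rw [← abs_mul, hz']
        have g1 := abs_sub (z s * R n + en * R s) (es * R n)
        have g2 := abs_add_le (z s * R n) (en * R s)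
        have g3 : |en * R s| ≤ ε * |(R s : ℝ)| := by
          rw [abs_mul]
          exact mul_le_mul_of_nonneg_right hen (abs_nonneg _)
        linarith
      have h10 : |z n| ≤ (2 * Am * ε) * W + ε * W + ε := by
        by_contra hcon
        push Not at hcon
        have hX : 0 ≤ (2 * Am * ε) * W + ε * W := by positivity
        have h11 : 0 < |z n| - ε := by linarith
        nlinarith
      have h12 : ε * W ≤ W * (Am * ε) := by nlinarith
      calc |z n| ≤ (2 * Am * ε) * W + ε * W + ε := h10
        _ = 2 * (W * (Am * ε)) + ε * W + ε := by ring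
        _ ≤ 4 * (W * (Am * ε)) := by linarith
        _ = 4 * W * Am * ε := by ring
    · have hA' : ∀ m < n, R m = 0 ∧ |z m| ≤ ε := by
        intro m hm
        rcases (ih m hm (hm.trans hn)).2 with h | ⟨s, hs, h⟩
        · exact h m le_rfl
        · exact absurd ⟨s, lt_of_le_of_lt hs hm, h⟩ hB
      have hz2 : |z n| ≤ 2 * Am * ε := by
        rcases lt_or_ge n n₀ with hlt | hge
        · have := h2 n hn hlt
          linarith
        · have := h3 n hn hge ε hε (fun m hm => (hA' m hm).2)
          linarith
      have hz4 : |z n| ≤ 4 * W * Am * ε := by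
        have : 4 * W * Am * ε = 4 * (W * (Am * ε)) := by ring
        have h5 : 0 ≤ Am * ε := by positivity
        linarith
      refine ⟨hz4, ?_⟩
      by_cases hR : R n = 0
      · left
        have hen' : |z n - J n| ≤ ε := by
          rw [hR] at hen
          simpa using hen
        have hJ : J n = 0 := by
          apply int_zero
          have g1 : |(J n : ℝ)| ≤ |z n| + |z n - J n| := by
            have := abs_sub (z n) (z n - J n)
            have g2 : z n - (z n - J n) = (J n : ℝ) := by ring
            rw [g2] at this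
            exact this
          linarith
        have hzε : |z n| ≤ ε := by
          rw [hJ] at hen'
          simpa using hen'
        intro m hm
        rcases hm.lt_or_eq with h | h
        · exact hA' m h
        · rw [h]; exact ⟨hR, hzε⟩
      · right
        exact ⟨n, le_rfl, hR, hz2⟩
  intro n hn
  exact (key n hn).1

end Pool.Agent.Helper47.XG
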