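import Pool.Agent.Helper12.XG.St2

/-!
# Project XG, module PAR: existence of the parameters
-/

set_option autoImplicit false

namespace Pool.Agent.Helper47.XG

open Finset Polynomial Pool.Agent.Helper12.XG Pool.Agent.Helper14.GS

private theorem ev_big (K : ℝ) (hK : 0 < K) (n : ℕ) :
    ∀ᶠ x : ℝ in Filter.atTop, K * x ^ n ≤ Real.exp x := by
  have h := (Real.isLittleO_pow_exp_atTop (n := n)).def (c := K⁻¹) (by positivity)
  filter_upwards [h, Filter.eventually_ge_atTop (0 : ℝ)] with x hx h0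
  rw [Real.norm_of_nonneg (by positivity), Real.norm_of_nonneg (Real.exp_pos x).le] at hx
  calc K * x ^ n ≤ K * (K⁻¹ * Real.exp x) := by gcongr
    _ = Real.exp x := by field_simp

private theorem ev_log (K : ℝ) (hK : 0 < K) :
    ∀ᶠ x : ℝ in Filter.atTop, K * (Real.log x) ^ 2 ≤ x := by
  have h := (Real.isLittleO_pow_log_id_atTop (n := 2)).def (c := K⁻¹) (by positivity)
  filter_upwards [h, Filter.eventually_ge_atTop (0 : ℝ)] with x hx h0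
  rw [Real.norm_of_nonneg (by positivity), id, Real.norm_of_nonneg h0] at hx
  calc K * (Real.log x) ^ 2 ≤ K * (K⁻¹ * x) := by gcongr
    _ = x := by field_simp

theorem hPAR : StPAR := by
  intro r C hC
  have hC0 : (0 : ℝ) < C := by exact_mod_cast hC
  have hev := (ev_big ((128 * (C : ℝ)) ^ 100) (by positivity) (100 * (2 * r + 3))).and
    (ev_log (200000 * ((r : ℝ) + 1) ^ 2) (by positivity))
  obtain ⟨X₀, hX₀⟩ := Filter.eventually_atTop.1 hev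
  obtain ⟨L₀, hL₀⟩ : ∃ n : ℕ, n = max 1200 ⌈X₀⌉₊ := ⟨_, rfl⟩
  refine ⟨⌈Real.exp L₀⌉₊, fun y hy => ?_⟩
  have hye : Real.exp L₀ ≤ y := (Nat.le_ceil _).trans (by exact_mod_cast hy)
  have hy0 : (0 : ℝ) < y := (Real.exp_pos _).trans_le hye
  have hlog : (L₀ : ℝ) ≤ Real.log y := (Real.le_log_iff_exp_le hy0).2 hye
  have hlog0 : 0 ≤ Real.log y := (Nat.cast_nonneg L₀).trans hlog
  obtain ⟨Λ, hΛ⟩ : ∃ n : ℕ, n = ⌊Real.log y⌋₊ := ⟨_, rfl⟩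
  have hΛL : L₀ ≤ Λ := by rw [hΛ]; exact Nat.le_floor hlog
  have h1200 : 1200 ≤ Λ := by
    refine le_trans ?_ hΛL
    rw [hL₀]; exact le_max_left _ _
  have hX : X₀ ≤ (Λ : ℝ) := by
    have h1 : ⌈X₀⌉₊ ≤ Λ := by
      refine le_trans ?_ hΛL
      rw [hL₀]; exact le_max_right _ _
    exact (Nat.le_ceil _).trans (by exact_mod_cast h1)
  obtain ⟨hb, hl⟩ := hX₀ Λ hX
  have hΛ1 : (1 : ℝ) ≤ Λ := by exact_mod_cast (by omega : 1 ≤ Λ)
  have hE2 : (((Λ ^ (r + 1) : ℕ) : ℝ)) ^ 2 + 1 ≤ 2 * (Λ : ℝ) ^ (2 * r + 2) := by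
    have h1 : (((Λ ^ (r + 1) : ℕ) : ℝ)) ^ 2 = (Λ : ℝ) ^ (2 * r + 2) := by
      push_cast
      rw [← pow_mul]
      congr 1
      ring
    have h2 : (1 : ℝ) ≤ (Λ : ℝ) ^ (2 * r + 2) := one_le_pow₀ hΛ1
    rw [h1]
    linarith
  refine ⟨Λ, Λ ^ (r + 1), 20 + 10 * ((r + 1) * (Nat.log 2 Λ + 1)), ?_⟩
  refine ⟨h1200, rfl, hC, ?_, ?_, ?_, ?_, ?_, ?_⟩
  · have h1 : (Λ : ℝ) ≤ Real.log y := by rw [hΛ]; exact Nat.floor_le hlog0
    calc Real.exp Λ ≤ Real.exp (Real.log y) := Real.exp_le_exp.2 h1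
      _ = y := Real.exp_log hy0
  · have h1 : Real.log y ≤ Λ + 1 := by rw [hΛ]; exact (Nat.lt_floor_add_one _).le
    calc (y : ℝ) = Real.exp (Real.log y) := (Real.exp_log hy0).symm
      _ ≤ Real.exp (Λ + 1) := Real.exp_le_exp.2 h1
  · -- hG
    have h1 : Λ ≤ 2 ^ (Nat.log 2 Λ + 1) := (Nat.lt_pow_succ_log_self (by norm_num) Λ).le
    obtain ⟨s, hs⟩ : ∃ s, s = (r + 1) * (Nat.log 2 Λ + 1) := ⟨_, rfl⟩
    have h2 : Λ ^ (r + 1) ≤ 2 ^ s := by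
      calc Λ ^ (r + 1) ≤ (2 ^ (Nat.log 2 Λ + 1)) ^ (r + 1) := Nat.pow_le_pow_left h1 _
        _ = 2 ^ s := by rw [← pow_mul, hs, mul_comm]
    rw [← hs]
    have h3 : (Λ ^ (r + 1)) ^ 2 + 1 ≤ 2 ^ (2 * s + 1) := by
      have h4 : (Λ ^ (r + 1)) ^ 2 ≤ (2 ^ s) ^ 2 := Nat.pow_le_pow_left h2 2
      have h5 : (2 ^ s) ^ 2 = 2 ^ (2 * s) := by rw [← pow_mul, mul_comm]
      have h6 : 1 ≤ 2 ^ (2 * s) := Nat.one_le_two_pow
      have h7 : 2 ^ (2 * s + 1) = 2 ^ (2 * s) + 2 ^ (2 * s) := by rw [pow_succ]; ring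
      omega
    calc 256 * ((Λ ^ (r + 1)) ^ 2 + 1) ^ 5 ≤ 256 * (2 ^ (2 * s + 1)) ^ 5 :=
          Nat.mul_le_mul_left _ (Nat.pow_le_pow_left h3 5)
      _ = 2 ^ (8 + (2 * s + 1) * 5) := by rw [← pow_mul, pow_add]; norm_num
      _ ≤ 2 ^ (20 + 10 * s) := Nat.pow_le_pow_right (by norm_num) (by omega)
  · exact Nat.le_add_right _ _
  · -- big
    refine le_trans ?_ hb
    have h1 : (64 : ℝ) * C * Λ * ((((Λ ^ (r + 1) : ℕ) : ℝ)) ^ 2 + 1) ≤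
        (128 * C) * (Λ : ℝ) ^ (2 * r + 3) := by
      calc (64 : ℝ) * C * Λ * ((((Λ ^ (r + 1) : ℕ) : ℝ)) ^ 2 + 1) ≤
          64 * C * Λ * (2 * (Λ : ℝ) ^ (2 * r + 2)) := by gcongr
        _ = (128 * C) * (Λ : ℝ) ^ (2 * r + 3) := by ring
    calc ((64 : ℝ) * C * Λ * ((((Λ ^ (r + 1) : ℕ) : ℝ)) ^ 2 + 1)) ^ 100 ≤
        ((128 * C) * (Λ : ℝ) ^ (2 * r + 3)) ^ 100 := pow_le_pow_left₀ (by positivity) h1 100
      _ = (128 * (C : ℝ)) ^ 100 * (Λ : ℝ) ^ (100 * (2 * r + 3)) := by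
        rw [mul_pow ((128 : ℝ) * C), ← pow_mul, mul_comm (2 * r + 3) 100]
  · -- fin
    refine le_trans ?_ hl
    obtain ⟨L, hL⟩ : ∃ L, L = Real.log Λ := ⟨_, rfl⟩
    have hL1 : 1 ≤ L := by
      rw [hL, Real.le_log_iff_exp_le (by linarith)]
      have h2 : Real.exp 1 ≤ 3 := by have := Real.exp_one_lt_d9; linarith
      have h3 : (1200 : ℝ) ≤ Λ := by exact_mod_cast h1200
      linarith
    have hs : ((Nat.log 2 Λ : ℕ) : ℝ) ≤ 2 * L := by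
      have h2 : 2 ^ Nat.log 2 Λ ≤ Λ := Nat.pow_log_le_self 2 (by omega)
      have h3 : ((2 : ℝ)) ^ Nat.log 2 Λ ≤ Λ := by exact_mod_cast h2
      have h4 := Real.log_le_log (by positivity) h3
      rw [Real.log_pow] at h4
      have h5 : (1 : ℝ) / 2 ≤ Real.log 2 := by have := Real.log_two_gt_d9; linarith
      have h6 : (0 : ℝ) ≤ (Nat.log 2 Λ : ℕ) := Nat.cast_nonneg _
      rw [hL]
      nlinarith
    have hlE : Real.log ((Λ ^ (r + 1) : ℕ) : ℝ) = (r + 1) * L := by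
      push_cast
      rw [Real.log_pow, hL]
      push_cast
      ring
    rw [hlE, ← hL]
    push_cast
    have hr : (0 : ℝ) ≤ r := Nat.cast_nonneg r
    have hr1 : (1 : ℝ) ≤ (r : ℝ) + 1 := by linarith
    have hrL : 1 ≤ ((r : ℝ) + 1) * L := one_le_mul_of_one_le_of_one_le hr1 hL1
    have g1 : (20 : ℝ) + 10 * (((r : ℝ) + 1) * (((Nat.log 2 Λ : ℕ) : ℝ) + 1)) ≤
        50 * (((r : ℝ) + 1) * L) := by
      have g2 : ((Nat.log 2 Λ : ℕ) : ℝ) + 1 ≤ 3 * L := by linarith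
      have g3 : ((r : ℝ) + 1) * (((Nat.log 2 Λ : ℕ) : ℝ) + 1) ≤ ((r : ℝ) + 1) * (3 * L) := by
        gcongr
      nlinarith
    have g4 : ((r : ℝ) + 1) * L + 1 ≤ 2 * (((r : ℝ) + 1) * L) := by linarith
    calc (2000 : ℝ) * (20 + 10 * (((r : ℝ) + 1) * (((Nat.log 2 Λ : ℕ) : ℝ) + 1))) *
          (((r : ℝ) + 1) * L + 1) ≤
        2000 * (50 * (((r : ℝ) + 1) * L)) * (2 * (((r : ℝ) + 1) * L)) := by gcongr
      _ = 200000 * ((r : ℝ) + 1) ^ 2 * L ^ 2 := by ring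

end Pool.Agent.Helper47.XG
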